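import Pool.Agent.H27.CAL.Stmts2

/-!
Project CAL, module ECO.
-/

set_option autoImplicit false

open scoped BigOperators ENNReal Topology
open Filter

namespace CAL

section
variable {𝕜 : Type*} [RCLike 𝕜] {E Z : Type*} [NormedAddCommGroup E] [NormedSpace 𝕜 E]
  [NormedAddCommGroup Z] [NormedSpace 𝕜 Z]

/-- `R - P k ∘ R` -/
noncomputable def ecoT (R : E →L[𝕜] Z) (P : ℕ → Z →L[𝕜] Z) (k : ℕ) : E →L[𝕜] Z :=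
  R - (P k).comp R

theorem eco_bound (R : E →L[𝕜] Z) (P : ℕ → Z →L[𝕜] Z) (hP : ∀ k z, ‖P k z‖ ≤ 2 * ‖z‖) (k : ℕ)
    (x : E) : ‖ecoT R P k x‖ ≤ (3 * ‖R‖) * ‖x‖ := by
  change ‖R x - P k (R x)‖ ≤ _
  have h1 := norm_sub_le (R x) (P k (R x))
  have h2 := hP k (R x)
  have h3 := R.le_opNorm x
  linarith

theorem eco_fin (R : E →L[𝕜] Z) (P : ℕ → Z →L[𝕜] Z) (n : ℕ) (Q : E →L[𝕜] E) {e : ℝ} (he : 0 ≤ e)
    (h : ∀ x, ‖ecoT R P n (x - Q x)‖ ≤ e * ‖x‖) :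
    ‖R - (P n).comp R - (ecoT R P n).comp Q‖ ≤ e := by
  refine ContinuousLinearMap.opNorm_le_bound _ he fun x => ?_
  have h1 := h x
  rw [map_sub] at h1
  exact h1

theorem eco_abs (RIS : (ℕ → E) → Prop) (Block : (ℕ → E) → (ℕ → ℕ) → (ℕ → ℕ) → Prop)
    (P0 : ℕ → E →L[𝕜] E) (P : ℕ → Z →L[𝕜] Z) (hP : ∀ k z, ‖P k z‖ ≤ 2 * ‖z‖) (R : E →L[𝕜] Z)
    (hinc : ∀ x, RIS x → ∀ N : ℕ → ℕ, StrictMono N →
      Tendsto (fun k => R (x k) - P (N k) (R (x k))) atTop (𝓝 0))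
    (hcrit : ∀ (T : ℕ → E →L[𝕜] Z) (M : ℝ), (∀ k x, ‖T k x‖ ≤ M * ‖x‖) →
      (∀ x, RIS x → ∀ φ : ℕ → ℕ, StrictMono φ → Tendsto (fun k => T (φ k) (x k)) atTop (𝓝 0)) →
      ∀ x s t, Block x s t → Tendsto (fun k => T k (x k)) atTop (𝓝 0))
    (htails : ∀ (T : ℕ → E →L[𝕜] Z) (M : ℝ), (∀ k x, ‖T k x‖ ≤ M * ‖x‖) →
      (∀ x s t, Block x s t → ∀ φ : ℕ → ℕ, StrictMono φ →
        Tendsto (fun k => T (φ k) (x k)) atTop (𝓝 0)) →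
      ∀ e : ℝ, 0 < e → ∃ N, ∀ n ≥ N, ∀ k ≥ N, ∀ x, ‖T k (x - P0 n x)‖ ≤ e * ‖x‖)
    (hfr : ∀ p (T : E →L[𝕜] Z), IsCompactOperator (T.comp (P0 p))) (e : ℝ) (he : 0 < e) :
    ∃ N, ∀ n ≥ N, ∃ K : E →L[𝕜] Z, IsCompactOperator K ∧ ‖R - (P n).comp R - K‖ ≤ e := by
  obtain ⟨N, hN⟩ := htails (ecoT R P) (3 * ‖R‖) (eco_bound R P hP)
    (fun x s t hx φ hφ => hcrit (fun k => ecoT R P (φ k)) (3 * ‖R‖)
      (fun k x => eco_bound R P hP _ x)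
      (fun y hy ψ hψ => hinc y hy (φ ∘ ψ) (hφ.comp hψ)) x s t hx) e he
  exact ⟨N, fun n hn => ⟨(ecoT R P n).comp (P0 N), hfr N (ecoT R P n),
    eco_fin R P n (P0 N) he.le (hN N le_rfl n hn)⟩⟩

end

theorem eco_gen {𝕜 : Type*} [RCLike 𝕜] {A : Type*} [PartialOrder A] {τ : TreeLev A}
    {Y : Type*} [NormedAddCommGroup Y] [NormedSpace 𝕜 Y]
    {A0 : Type*} [PartialOrder A0] {Y0 : Type*} [NormedAddCommGroup Y0]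
    [NormedSpace 𝕜 Y0] {τ0 : TreeLev A0} (D0 : Dat 𝕜 Y0 τ0) (D : Dat 𝕜 Y τ)
    (hinc : INCStmt D0 D) (hcrit : CRITStmt D0 D.X) (htails : TAILSStmt D0 D.X)
    (hfr : HFRStmt D0 D.X) (hA : IsEmpty A0) {Ch : Finset ℕ → Prop} (F : FamSys Ch) (w0 w : Wts)
    (hw0 : Rich D0 F w0) (hw : Rich D F w) (hdis : Disjoint w0.L w.L) (R : D0.X →L[𝕜] D.X)
    (e : ℝ) (he : 0 < e) : ∃ N, ∀ n ≥ N, ∃ K : D0.X →L[𝕜] D.X, IsCompactOperator K ∧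
      ‖R - (D.PX n).comp R - K‖ ≤ e :=
  eco_abs D0.RIS D0.Block D0.PX D.PX D.norm_PX_le R (hinc F w0 w hw0 hw hdis R) hcrit htails
    (hfr hA) e he

theorem cal_eco {𝕜 : Type*} [RCLike 𝕜] {A : Type*} [PartialOrder A] {τ : TreeLev A}
    {A0 : Type*} [PartialOrder A0] {Y0 : Type*} [NormedAddCommGroup Y0]
    [NormedSpace 𝕜 Y0] {τ0 : TreeLev A0} (D0 : Dat 𝕜 Y0 τ0) (D : Dat 𝕜 D0.X τ)
    (hinc : INCStmt D0 D) (hcrit : CRITStmt D0 D.X) (htails : TAILSStmt D0 D.X)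
    (hfr : HFRStmt D0 D.X) : ECOStmt D0 D := fun hA _ F w0 w hw0 hw hdis R e he =>
  eco_gen D0 D hinc hcrit htails hfr hA F w0 w hw0 hw hdis R e he

end CAL
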