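import Pool.Agent.H27.CAL.Stmts2

/-!
Project CAL, module ENULL.
-/

set_option autoImplicit false

open scoped BigOperators ENNReal Topology
open Filter

namespace CAL

section
variable {𝕜 : Type*} [RCLike 𝕜] {A : Type*} [PartialOrder A] {Y : Type*} [NormedAddCommGroup Y]
  [NormedSpace 𝕜 Y] {τ : TreeLev A}

theorem enull_fin {A0 : Type*} [PartialOrder A0] {Y0 : Type*} [NormedAddCommGroup Y0]
    [NormedSpace 𝕜 Y0] {τ0 : TreeLev A0} (D0 : Dat 𝕜 Y0 τ0) (h : BIOStmt D0) (hA : IsEmpty A0)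
    (p : ℕ) (y : D0.X) :
    D0.PX p y = ∑ γ ∈ (D0.fin p).toFinset, D0.ds γ y • D0.dv γ := by
  obtain ⟨-, -, -, -, -, -, -, -, -, -, -, -, -, h1⟩ := h
  have h2 := h1 p ∅ (D0.fin p).toFinset (fun a => hA.elim a)
    (fun γ => by rw [Set.Finite.mem_toFinset]; rfl) y
  rw [h2, Finset.sum_empty, zero_add]

theorem cal_enull (D : Dat 𝕜 Y τ) {A0 : Type*} [PartialOrder A0] {Y0 : Type*}
    [NormedAddCommGroup Y0] [NormedSpace 𝕜 Y0] {τ0 : TreeLev A0} (D0 : Dat 𝕜 Y0 τ0)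
    (hinc : INCStmt D D0) (hbio : BIOStmt D0) (hnull : RNULLStmt D) (hsub : SUBStmt D) :
    ENULLStmt D D0 := by
  intro hA Ch F w w0 hw hw0 hdis R x hx
  have h1 : ∀ p, Tendsto (fun k => D0.PX p (R (x k))) atTop (𝓝 0) := by
    intro p
    have h2 : (fun k => D0.PX p (R (x k))) =
        fun k => ∑ γ ∈ (D0.fin p).toFinset, D0.ds γ (R (x k)) • D0.dv γ := by
      funext k
      exact enull_fin D0 hbio hA p _
    rw [h2]
    have h3 : Tendsto (fun k => ∑ γ ∈ (D0.fin p).toFinset, D0.ds γ (R (x k)) • D0.dv γ) atTop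
        (𝓝 (∑ γ ∈ (D0.fin p).toFinset, (0 : 𝕜) • D0.dv γ)) := by
      refine tendsto_finsetSum _ fun γ _ => ?_
      exact (hnull F w hw ((D0.ds γ).comp R) x hx).smul_const _
    simpa using h3
  by_contra hcon
  rw [Metric.tendsto_atTop] at hcon
  push Not at hcon
  obtain ⟨δ, hδ, hcon⟩ := hcon
  obtain ⟨φ, hφ, hφ2⟩ := extraction_forall_of_frequently
    (P := fun i k => δ ≤ ‖R (x k)‖ ∧ ‖D0.PX i (R (x k))‖ ≤ δ / 2) (by
    intro i
    have h2 : ∀ᶠ k in atTop, ‖D0.PX i (R (x k))‖ ≤ δ / 2 := by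
      have h3 := (h1 i).norm
      rw [norm_zero] at h3
      exact h3.eventually (eventually_le_nhds (by linarith))
    refine Frequently.and_eventually ?_ h2
    rw [frequently_atTop]
    intro a
    obtain ⟨b, hb, hb2⟩ := hcon a
    rw [dist_zero_right] at hb2
    exact ⟨b, hb, hb2⟩)
  obtain ⟨C, s, t, j, hC⟩ := hx
  have h2 := hinc F w w0 hw hw0 hdis R (x ∘ φ) ⟨C, _, _, _, hsub.1 C x s t j φ hC hφ⟩ id
    strictMono_id
  have h3 := h2.norm
  rw [norm_zero] at h3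
  obtain ⟨k, hk⟩ := (h3.eventually (eventually_lt_nhds (show (0 : ℝ) < δ / 2 by linarith))).exists
  have h4 := norm_sub_norm_le (R (x (φ k))) (D0.PX k (R (x (φ k))))
  have h5 := hφ2 k
  have h6 : ‖R (x (φ k)) - D0.PX k (R (x (φ k)))‖ < δ / 2 := hk
  linarith [h5.1, h5.2]

end

end CAL
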