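import Pool.Agent.H27.CAL.Stmts2

/-!
Project CAL, module PC: the projections f ↦ f ∘ ret p on C(A).
-/

set_option autoImplicit false

open scoped BigOperators ENNReal Topology
open Filter

namespace CAL

section
variable {𝕜 : Type*} [RCLike 𝕜] {A : Type*} [PartialOrder A] [TopologicalSpace A]

omit [TopologicalSpace A] in
theorem pc_ret_congr (τ : TreeLev A) {p : ℕ} {x y : A}
    (h : ∀ a, τ.lev a ≤ p → (a ≤ x ↔ a ≤ y)) : τ.ret p x = τ.ret p y := by
  rcases hy : τ.ret p y with _ | b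
  · rw [τ.ret_eq_none] at hy ⊢
    intro c hc
    by_contra hlt
    push Not at hlt
    exact absurd (hy c ((h c hlt).1 hc)) (not_lt.2 hlt)
  · rw [τ.ret_eq_some] at hy ⊢
    refine ⟨(h b hy.2.1).2 hy.1, hy.2.1, fun c hc hcp => hy.2.2 c ((h c hcp).1 hc) hcp⟩

theorem pc_loc (τ : TreeLev A) (hc : ∀ a : A, IsClopen {b | a ≤ b}) (p : ℕ) :
    IsLocallyConstant (τ.ret p) := by
  rw [IsLocallyConstant.iff_eventually_eq]
  intro x
  have h1 : ∀ᶠ y in 𝓝 x, ∀ a ∈ {a | τ.lev a ≤ p}, (a ≤ y ↔ a ≤ x) := by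
    rw [(τ.fin p).eventually_all]
    intro a _
    by_cases hx : a ≤ x
    · filter_upwards [(hc a).isOpen.mem_nhds hx] with y hy
      exact iff_of_true hy hx
    · filter_upwards [(hc a).compl.isOpen.mem_nhds hx] with y hy
      exact iff_of_false hy hx
  filter_upwards [h1] with y hy
  exact pc_ret_congr τ fun a ha => hy a ha

variable [CompactSpace A]

variable (𝕜) in
/-- the projection -/
noncomputable def pcP (τ : TreeLev A) (hc : ∀ a : A, IsClopen {b | a ≤ b}) (p : ℕ) :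
    C(A, 𝕜) →L[𝕜] C(A, 𝕜) :=
  LinearMap.mkContinuous
    { toFun := fun f => ⟨fun x => (τ.ret p x).elim 0 f,
        ((pc_loc τ hc p).comp (fun o : Option A => o.elim (0 : 𝕜) f)).continuous⟩
      map_add' := by
        intro f g
        ext x
        change (τ.ret p x).elim 0 (f + g : C(A, 𝕜)) = (τ.ret p x).elim 0 f + (τ.ret p x).elim 0 g
        rcases τ.ret p x with _ | b
        · exact (add_zero (0 : 𝕜)).symm
        · rfl
      map_smul' := by
        intro c f
        ext x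
        change (τ.ret p x).elim 0 (c • f : C(A, 𝕜)) = c • (τ.ret p x).elim 0 f
        rcases τ.ret p x with _ | b
        · exact (smul_zero c).symm
        · rfl } 1 (by
    intro f
    rw [one_mul]
    refine (ContinuousMap.norm_le _ (norm_nonneg f)).2 fun x => ?_
    change ‖(τ.ret p x).elim (0 : 𝕜) f‖ ≤ ‖f‖
    rcases τ.ret p x with _ | b
    · simp
    · exact f.norm_coe_le_norm b)

theorem pcP_apply (τ : TreeLev A) (hc : ∀ a : A, IsClopen {b | a ≤ b}) (p : ℕ) (f : C(A, 𝕜))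
    (x : A) : pcP 𝕜 τ hc p f x = (τ.ret p x).elim 0 f := rfl

theorem pcP_norm (τ : TreeLev A) (hc : ∀ a : A, IsClopen {b | a ≤ b}) (p : ℕ) (f : C(A, 𝕜)) :
    ‖pcP 𝕜 τ hc p f‖ ≤ ‖f‖ := by
  refine (ContinuousMap.norm_le _ (norm_nonneg f)).2 fun x => ?_
  rw [pcP_apply]
  rcases τ.ret p x with _ | b
  · simp
  · exact f.norm_coe_le_norm b

theorem pc_key (τ : TreeLev A) (hc : ∀ a : A, IsClopen {b | a ≤ b}) (f : C(A, 𝕜)) {δ : ℝ}
    (hδ : 0 < δ) (a : A) : ∃ p0, ∀ p ≥ p0, ∀ x, a ≤ x → ∃ b, τ.ret p x = some b ∧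
      ‖f x - f b‖ ≤ δ := by
  have hwf : WellFounded (fun x y : A => x > y) := by
    rw [RelEmbedding.wellFounded_iff_isEmpty]
    refine ⟨fun g => τ.wf (fun n => g n) ?_⟩
    exact strictMono_nat_of_lt_succ fun n => g.map_rel_iff.2 (Nat.lt_succ_self n)
  induction a using hwf.induction with
  | _ a ih =>
    choose! q hq using ih
    let C : Set A := {x | a ≤ x} ∩ {x | ‖f x - f a‖ < δ / 2}ᶜ
    have hopen : IsOpen {x | ‖f x - f a‖ < δ / 2} :=
      isOpen_lt (f.continuous.sub continuous_const).norm continuous_const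
    have hC : IsCompact C := ((hc a).isClosed.inter hopen.isClosed_compl).isCompact
    obtain ⟨T, hT⟩ := hC.elim_finite_subcover (fun c : {c : A // a < c} => {x | c.1 ≤ x})
      (fun c => (hc c.1).isOpen) (by
        intro x hx
        obtain ⟨hx1, hx2⟩ := hx
        have hne : a ≠ x := by
          rintro rfl
          apply hx2
          simp [hδ]
        exact Set.mem_iUnion.2 ⟨⟨x, lt_of_le_of_ne hx1 hne⟩, le_refl x⟩)
    refine ⟨max (τ.lev a) (T.sup fun c => q c.1), ?_⟩
    intro p hp x hx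
    have hpa : τ.lev a ≤ p := (le_max_left _ _).trans hp
    by_cases hT1 : ∃ c ∈ T, c.1 ≤ x
    · obtain ⟨c, hcT, hcx⟩ := hT1
      have h1 : q c.1 ≤ p :=
        ((Finset.le_sup (f := fun c : {c : A // a < c} => q c.1) hcT).trans (le_max_right _ _)).trans hp
      exact hq c.1 c.2 p h1 x hcx
    · push Not at hT1
      have hnC : ∀ y, y ≤ x → y ∉ C := by
        intro y hy hyC
        have h1 := hT hyC
        rw [Set.mem_iUnion₂] at h1
        obtain ⟨c, hcT, hcy⟩ := h1
        exact hT1 c hcT (le_trans hcy hy)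
      have hsm : ∀ y, y ≤ x → a ≤ y → ‖f y - f a‖ < δ / 2 := by
        intro y hy hay
        by_contra hcon
        exact hnC y hy ⟨hay, hcon⟩
      rcases hr : τ.ret p x with _ | b
      · exact absurd (τ.ret_eq_none.1 hr a hx) (not_lt.2 hpa)
      · refine ⟨b, rfl, ?_⟩
        obtain ⟨hb1, hb2, hb3⟩ := τ.ret_eq_some.1 hr
        have h1 := hsm x le_rfl hx
        have h2 := hsm b hb1 (hb3 a hx hpa)
        have h3 : f x - f b = (f x - f a) - (f b - f a) := by ring
        rw [h3]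
        refine (norm_sub_le _ _).trans ?_
        linarith

theorem cal_pc (τ : TreeLev A) : PCStmt 𝕜 τ := by
  intro hc
  refine ⟨pcP 𝕜 τ hc, fun p f x => rfl, pcP_norm τ hc, ?_⟩
  intro f
  rw [Metric.tendsto_atTop]
  intro ε hε
  have hδ : 0 < ε / 2 := by linarith
  choose q hq using fun a => pc_key τ hc f hδ a
  obtain ⟨T, hT⟩ := isCompact_univ.elim_finite_subcover (fun c : A => {x | c ≤ x})
    (fun c => (hc c).isOpen) (fun x _ => Set.mem_iUnion.2 ⟨x, le_refl x⟩)
  refine ⟨T.sup q, fun p hp => ?_⟩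
  have h1 : ‖pcP 𝕜 τ hc p f - f‖ ≤ ε / 2 := by
    refine (ContinuousMap.norm_le _ hδ.le).2 fun x => ?_
    have h2 := hT (Set.mem_univ x)
    rw [Set.mem_iUnion₂] at h2
    obtain ⟨c, hcT, hcx⟩ := h2
    obtain ⟨b, hb, hb2⟩ := hq c p ((Finset.le_sup (f := q) hcT).trans hp) x hcx
    rw [ContinuousMap.sub_apply, pcP_apply, hb, norm_sub_rev]
    exact hb2
  rw [dist_eq_norm]
  linarith

end

end CAL
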