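import Pool.Agent.H27.CAL.Stmts2

/-!
Project CAL, module PCSUM: the projections as finite sums.
-/

set_option autoImplicit false

open scoped BigOperators ENNReal Topology
open Filter

namespace CAL

section
variable {𝕜 : Type*} [RCLike 𝕜] {A : Type*} [PartialOrder A]

open Classical in
theorem pcsum_aux (τ : TreeLev A) (f : A → 𝕜) (x : A) (p : ℕ) : ∀ N : Finset A,
    (∀ a, a ∈ N ↔ τ.lev a ≤ p) → (τ.ret p x).elim 0 f =
      ∑ a ∈ N.filter (· ≤ x), (f a - (τ.ret (τ.lev a - 1) a).elim 0 f) := by
  induction p using Nat.strong_induction_on with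
  | _ p ih =>
    intro N hN
    rcases hr : τ.ret p x with _ | b
    · have h1 : N.filter (· ≤ x) = ∅ := by
        rw [Finset.filter_eq_empty_iff]
        intro a ha hax
        exact absurd (τ.ret_eq_none.1 hr a hax) (not_lt.2 ((hN a).1 ha))
      rw [h1, Finset.sum_empty]
      rfl
    · obtain ⟨hb1, hb2, hb3⟩ := τ.ret_eq_some.1 hr
      have hpos := τ.lev_pos b
      set q := τ.lev b - 1 with hq
      have hqp : q < p := by omega
      have h1 := ih q hqp (N.filter (fun a => τ.lev a ≤ q)) (fun a => by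
        rw [Finset.mem_filter, hN]
        constructor
        · exact fun h => h.2
        · exact fun h => ⟨by omega, h⟩)
      have h2 : τ.ret q b = τ.ret q x := by
        have h3 := τ.ret_ret (p := q) (q := p) (a := x)
        rw [hr, min_eq_left hqp.le] at h3
        exact h3
      have h3 : N.filter (· ≤ x) = insert b ((N.filter (fun a => τ.lev a ≤ q)).filter (· ≤ x)) := by
        ext a
        rw [Finset.mem_filter, Finset.mem_insert, Finset.mem_filter, Finset.mem_filter, hN]
        constructor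
        · rintro ⟨h4, h5⟩
          rcases eq_or_lt_of_le (hb3 a h5 h4) with h6 | h6
          · exact Or.inl h6
          · have := τ.lev_lt _ _ h6
            exact Or.inr ⟨⟨h4, by omega⟩, h5⟩
        · rintro (rfl | h4)
          · exact ⟨hb2, hb1⟩
          · exact ⟨h4.1.1, h4.2⟩
      have h4 : b ∉ (N.filter (fun a => τ.lev a ≤ q)).filter (· ≤ x) := by
        rw [Finset.mem_filter, Finset.mem_filter]
        rintro ⟨⟨_, h5⟩, _⟩
        omega
      rw [h3, Finset.sum_insert h4, ← h1, ← hq, h2, sub_add_cancel]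
      rfl

end

theorem cal_pcsum {𝕜 : Type*} [RCLike 𝕜] {A : Type*} [PartialOrder A] [TopologicalSpace A]
    [CompactSpace A] (τ : TreeLev A) (hc : ∀ a : A, IsClopen {b | a ≤ b}) :
    PCSUMStmt 𝕜 τ hc := by
  classical
  intro p N hN f x
  have h1 : (∑ a ∈ N, dC 𝕜 τ a f • chi 𝕜 hc a) x =
      ∑ a ∈ N, dC 𝕜 τ a f * (if a ≤ x then 1 else 0) := by
    rw [ContinuousMap.sum_apply]
    refine Finset.sum_congr rfl fun a _ => ?_
    change dC 𝕜 τ a f • (Set.indicator {b | a ≤ b} (fun _ => (1 : 𝕜)) x) = _
    rw [smul_eq_mul, Set.indicator_apply]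
    rfl
  rw [h1, pcsum_aux τ f x p N hN, Finset.sum_filter]
  refine Finset.sum_congr rfl fun a _ => ?_
  have h2 : dC 𝕜 τ a f = f a - (τ.ret (τ.lev a - 1) a).elim 0 f := by
    unfold dC
    rw [sub_apply]
    congr 1
    rcases τ.ret (τ.lev a - 1) a with _ | b <;> rfl
  rw [h2]
  split_ifs <;> simp

end CAL
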