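import Pool.Agent.H27.CAL.Stmts2

/-!
Project CAL, module PLIM: limits of members of a well-founded family.
-/

set_option autoImplicit false

open scoped BigOperators ENNReal Topology
open Filter

namespace CAL

theorem plim_agree (P : ℕ → Finset ℕ) (K : ℕ) :
    ∀ᶠ n in (hyperfilter ℕ : Filter ℕ), ∀ p ∈ Finset.range K,
      (p ∈ P n ↔ ∀ᶠ k in (hyperfilter ℕ : Filter ℕ), p ∈ P k) := by
  rw [Finset.eventually_all]
  intro p _
  by_cases h : ∀ᶠ k in (hyperfilter ℕ : Filter ℕ), p ∈ P k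
  · filter_upwards [h] with n hn
    exact iff_of_true hn h
  · filter_upwards [Ultrafilter.eventually_not.2 h] with n hn
    exact iff_of_false hn h

theorem cal_plim : PLIMStmt := by
  classical
  intro H hinit hW P hP
  set Q : Set ℕ := {p | ∀ᶠ k in (hyperfilter ℕ : Filter ℕ), p ∈ P k} with hQ
  have hfin : Q.Finite := by
    by_contra hinf
    have hinf : Q.Infinite := hinf
    obtain ⟨n0, hn0⟩ := hW (Nat.nth (· ∈ Q)) (Nat.nth_strictMono hinf)
    obtain ⟨n, hn⟩ := (plim_agree P (Nat.nth (· ∈ Q) n0)).exists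
    apply hn0
    have h1 := hinit (P n) (Nat.nth (· ∈ Q) n0) (hP n)
    convert h1 using 1
    ext p
    rw [Finset.mem_image, Finset.mem_filter]
    constructor
    · rintro ⟨r, hr, rfl⟩
      have h2 : Nat.nth (· ∈ Q) r < Nat.nth (· ∈ Q) n0 :=
        Nat.nth_strictMono hinf (Finset.mem_range.1 hr)
      exact ⟨(hn _ (Finset.mem_range.2 h2)).2 (Nat.nth_mem_of_infinite hinf r), h2⟩
    · rintro ⟨h2, h3⟩
      have h4 : p ∈ Q := (hn _ (Finset.mem_range.2 h3)).1 h2
      have h5 : p ∈ Set.range (Nat.nth (· ∈ Q)) := by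
        have h6 := Nat.range_nth_of_infinite (p := (· ∈ Q)) hinf
        rw [h6]
        exact h4
      obtain ⟨r, rfl⟩ := h5
      exact ⟨r, Finset.mem_range.2 ((Nat.nth_strictMono hinf).lt_iff_lt.1 h3), rfl⟩
  set F := hfin.toFinset with hF
  refine ⟨F.card, F.sup id, fun M m => ?_⟩
  have h1 : ∀ᶠ n in (hyperfilter ℕ : Filter ℕ), m ≤ n := by
    have h2 : (hyperfilter ℕ : Filter ℕ) ≤ atTop := by
      rw [← Nat.cofinite_eq_atTop]
      exact hyperfilter_le_cofinite
    exact h2 (eventually_ge_atTop m)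
  obtain ⟨n, hn1, hn2⟩ := (h1.and (plim_agree P (M + 1))).exists
  refine ⟨n, hn1, fun s hs1 hs2 => ?_⟩
  unfold cnt
  congr 1
  ext p
  rw [Finset.mem_filter, hF, Set.Finite.mem_toFinset]
  constructor
  · rintro ⟨h3, h4⟩
    exact (hn2 p (Finset.mem_range.2 (by omega))).1 h3
  · intro h3
    have h4 : p ≤ F.sup id := Finset.le_sup (f := id) (hfin.mem_toFinset.2 h3)
    exact ⟨(hn2 p (Finset.mem_range.2 (by omega))).2 h3, h4.trans hs1⟩

end CAL
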