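import Pool.Agent.H27.CAL.Stmts2

/-!
Project CAL, module WWF: the level families of the auxiliary functionals are well-founded.
-/

set_option autoImplicit false

open scoped BigOperators ENNReal Topology
open Filter

namespace CAL

section
variable {Ch : Finset ℕ → Prop} {Fam : ℕ → Finset ℕ → Prop} {j : ℕ}

theorem wwf_inv {g : ℕ → ℝ} (hg : WW Ch Fam j g) :
    (g = fun _ => 0) ∨ (∃ t : ℕ, g = fun s => if s = t then 1 else 0) ∨
    (∃ G, Ch G ∧ g = fun s => if s ∈ G then 1 else 0) ∨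
    ∃ i, i < j ∧ ∃ P, Fam i P ∧ ∃ S : Finset ℕ,
      (∀ s ∈ S, ∀ t ∈ S, cnt P s = cnt P t → s = t) ∧ ∃ h : ℕ → ℝ,
      (∀ c, WW Ch Fam j (fun s => if cnt P s = c then h s else 0)) ∧ (∀ s ∈ S, h s = 0) ∧
      g = fun s => (mm i)⁻¹ * ((if s ∈ S then 1 else 0) + h s) := by
  cases hg with
  | zero => exact Or.inl rfl
  | single t => exact Or.inr (Or.inl ⟨t, rfl⟩)
  | chain G h => exact Or.inr (Or.inr (Or.inl ⟨G, h, rfl⟩))
  | node i hi P hP S hS h hh hd =>
    exact Or.inr (Or.inr (Or.inr ⟨i, hi, P, hP, S, hS, h, hh, hd, rfl⟩))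

theorem wwf_main (h1 : WWBStmt) (h2 : PLIMStmt) (h3 : PLUSStmt) (hCh : Hered Ch) (hChW : WFam Ch)
    (hF : ∀ i < j, (∀ H n, Fam i H → Fam i (H.filter (· < n))) ∧ WFam (Fam i)) (D : ℕ) :
    ∀ δ : ℝ, ((4 : ℝ) ^ D)⁻¹ < δ →
      WFam (fun H => ∃ g, WW Ch Fam j g ∧ ∀ s ∈ H, δ ≤ g s) := by
  induction D with
  | zero =>
    intro δ hδ t _
    refine ⟨1, ?_⟩
    rintro ⟨g, hg, hs⟩
    have h4 := hs (t 0) (Finset.mem_image_of_mem _ (Finset.mem_range.2 Nat.one_pos))
    have h5 := (h1 Ch Fam j g hg (t 0)).2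
    rw [pow_zero, inv_one] at hδ
    linarith
  | succ D ih =>
    intro δ hδ t ht
    by_contra hcon
    push Not at hcon
    have hδ0 : 0 < δ := lt_trans (by positivity) hδ
    obtain ⟨n1, hn1⟩ := hChW t ht
    have hsub : ∀ m n, m ≤ n → (Finset.range m).image t ⊆ (Finset.range n).image t :=
      fun m n hmn => Finset.image_subset_image (Finset.range_subset_range.2 hmn)
    have hnode : ∀ n, max n1 2 ≤ n → ∃ i, i < j ∧ ∃ P, Fam i P ∧ ∃ S : Finset ℕ,
        (∀ s ∈ S, ∀ t ∈ S, cnt P s = cnt P t → s = t) ∧ ∃ h : ℕ → ℝ,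
        (∀ c, WW Ch Fam j (fun s => if cnt P s = c then h s else 0)) ∧
        ∀ s ∈ (Finset.range n).image t, s ∉ S → mm i * δ ≤ h s := by
      intro n hn
      have hn1' : n1 ≤ n := (le_max_left _ _).trans hn
      have hn2' : 2 ≤ n := (le_max_right _ _).trans hn
      obtain ⟨g, hg, hgs⟩ := hcon n
      have ht0 : t 0 ∈ (Finset.range n).image t :=
        Finset.mem_image_of_mem _ (Finset.mem_range.2 (by omega))
      have ht1 : t 1 ∈ (Finset.range n).image t :=
        Finset.mem_image_of_mem _ (Finset.mem_range.2 (by omega))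
      rcases wwf_inv hg with hz | ⟨u, hu⟩ | ⟨G, hG, hG'⟩ | ⟨i, hi, P, hP, S, hS, h, hh, hd, hg'⟩
      · have := hgs _ ht0
        rw [hz] at this
        linarith
      · exfalso
        have e0 : t 0 = u := by
          by_contra hne
          have := hgs _ ht0
          rw [hu] at this
          simp only [if_neg hne] at this
          linarith
        have e1 : t 1 = u := by
          by_contra hne
          have := hgs _ ht1
          rw [hu] at this
          simp only [if_neg hne] at this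
          linarith
        have := ht (show (0 : ℕ) < 1 from Nat.one_pos)
        omega
      · exfalso
        apply hn1
        refine hCh G _ (fun s hs => ?_) hG
        by_contra hne
        have := hgs _ (hsub n1 n hn1' hs)
        rw [hG'] at this
        simp only [if_neg hne] at this
        linarith
      · refine ⟨i, hi, P, hP, S, hS, h, hh, fun s hs hsS => ?_⟩
        have h5 := hgs s hs
        rw [hg'] at h5
        simp only [if_neg hsS, zero_add] at h5
        have h6 := mm_pos i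
        calc mm i * δ ≤ mm i * ((mm i)⁻¹ * h s) := mul_le_mul_of_nonneg_left h5 h6.le
          _ = h s := by rw [← mul_assoc, mul_inv_cancel₀ h6.ne', one_mul]
    -- a fixed index `i` for infinitely many `n`
    have hi : ∃ i, i < j ∧ ∀ m, ∃ n, m ≤ n ∧ ∃ P, Fam i P ∧ ∃ S : Finset ℕ,
        (∀ s ∈ S, ∀ t ∈ S, cnt P s = cnt P t → s = t) ∧ ∃ h : ℕ → ℝ,
        (∀ c, WW Ch Fam j (fun s => if cnt P s = c then h s else 0)) ∧
        ∀ s ∈ (Finset.range n).image t, s ∉ S → mm i * δ ≤ h s := by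
      by_contra hcon2
      push Not at hcon2
      have h5 : ∀ i, ∃ m, i < j → ∀ n, m ≤ n → ∀ P, Fam i P → ∀ S : Finset ℕ,
        (∀ s ∈ S, ∀ t ∈ S, cnt P s = cnt P t → s = t) → ∀ h : ℕ → ℝ,
        (∀ c, WW Ch Fam j (fun s => if cnt P s = c then h s else 0)) →
        ∃ s ∈ (Finset.range n).image t, s ∉ S ∧ h s < mm i * δ := by
        intro i
        by_cases hij : i < j
        · obtain ⟨m, hm⟩ := hcon2 i hij
          exact ⟨m, fun _ => hm⟩
        · exact ⟨0, fun h => absurd h hij⟩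
      choose m hm using h5
      obtain ⟨i, hij, P, hP, S, hS, h, hh, hs⟩ := hnode (max (max n1 2) ((Finset.range j).sup m))
        (le_max_left _ _)
      obtain ⟨s, hs1, hs2, hs3⟩ := hm i hij (max (max n1 2) ((Finset.range j).sup m))
        ((Finset.le_sup (f := m) (Finset.mem_range.2 hij)).trans (le_max_right _ _)) P hP S hS h hh
      exact absurd (hs s hs1 hs2) (not_le.2 hs3)
    obtain ⟨i, hij, hi⟩ := hi
    choose φ hφ P hP S hS h hh hs using hi
    obtain ⟨c, N, hcN⟩ := h2 (Fam i) (hF i hij).1 (hF i hij).2 P hP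
    -- the level family for `4 δ`
    have h4δ : ((4 : ℝ) ^ D)⁻¹ < 4 * δ := by
      have : ((4 : ℝ) ^ (D + 1))⁻¹ = ((4 : ℝ) ^ D)⁻¹ / 4 := by
        rw [pow_succ, mul_inv, div_eq_mul_inv]
      rw [this] at hδ
      linarith
    have hher : Hered (fun H => ∃ g, WW Ch Fam j g ∧ ∀ s ∈ H, 4 * δ ≤ g s) := by
      rintro G G' hGG ⟨g, hg, hg'⟩
      exact ⟨g, hg, fun s hs => hg' s (hGG hs)⟩
    have hN : N ≤ t N := ht.id_le N
    obtain ⟨m, hm⟩ := h3 _ hher (ih (4 * δ) h4δ) (fun r => t (N + r))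
      (fun a b hab => ht (by omega))
    apply hm
    obtain ⟨k, hk, hkc⟩ := hcN (t (N + m)) (N + m)
    have hmem : ∀ s ∈ (Finset.range m).image (fun r => t (N + r)),
        s ∈ (Finset.range (φ k)).image t ∧ N ≤ s ∧ s ≤ t (N + m) := by
      intro s hs
      obtain ⟨r, hr, rfl⟩ := Finset.mem_image.1 hs
      rw [Finset.mem_range] at hr
      refine ⟨Finset.mem_image_of_mem _ (Finset.mem_range.2 ?_), ?_, ?_⟩
      · have := hφ k
        omega
      · exact hN.trans (ht.monotone (by omega))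
      · exact ht.monotone (by omega)
    have key : ∀ s ∈ (Finset.range m).image (fun r => t (N + r)), s ∉ S k →
        4 * δ ≤ if cnt (P k) s = c then h k s else 0 := by
      intro s hs1 hs2
      obtain ⟨h6, h7, h8⟩ := hmem s hs1
      rw [if_pos (hkc s h7 h8)]
      refine le_trans ?_ (hs k s h6 hs2)
      exact mul_le_mul_of_nonneg_right (four_le_mm i) hδ0.le
    by_cases hx : ∃ x ∈ (Finset.range m).image (fun r => t (N + r)), x ∈ S k
    · obtain ⟨x, hx1, hx2⟩ := hx
      refine ⟨x, _, hh k c, fun s hs' => ?_⟩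
      obtain ⟨hs1, hs2⟩ := Finset.mem_erase.1 hs'
      refine key s hs2 fun hs3 => hs1 ?_
      obtain ⟨_, h7, h8⟩ := hmem s hs2
      obtain ⟨_, h7', h8'⟩ := hmem x hx1
      exact hS k s hs3 x hx2 ((hkc s h7 h8).trans (hkc x h7' h8').symm)
    · push Not at hx
      refine ⟨0, _, hh k c, fun s hs' => ?_⟩
      obtain ⟨_, hs2⟩ := Finset.mem_erase.1 hs'
      exact key s hs2 (hx s hs2)

end

theorem cal_wwf (h1 : WWBStmt) (h2 : PLIMStmt) (h3 : PLUSStmt) : WWFStmt := by
  intro Ch Fam j hCh hChW hF δ hδ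
  obtain ⟨D, hD⟩ := exists_pow_lt_of_lt_one hδ (show (4 : ℝ)⁻¹ < 1 by norm_num)
  exact wwf_main h1 h2 h3 hCh hChW hF D δ (by rwa [← inv_pow])

end CAL
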